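import Pool.Agent.H6.TP.Targets
import Pool.Agent.H28.NW.Targets

/-!
# MP_c59857_nt, row GEN of nw_modules: the frequencies of large correlations are generic
-/

set_option autoImplicit false

open Finset Pool.Agent.H6.N4D Pool.Agent.H6.TP

namespace Pool.Agent.H91.NW

open Pool.Agent.H28.NW
theorem pf_GEN (hMRS : T_MRS) (hNRG : T_NRG) (hSWP : W_SWP) : W_GEN := by
  classical
  intro Q κ hκ
  obtain ⟨H₀, hH₀⟩ := hMRS Q (κ / 40) (by positivity)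
  set H : ℕ := max H₀ 1 with hHdef
  have hH1 : 1 ≤ H := le_max_right _ _
  have hH1' : (1 : ℝ) ≤ H := by exact_mod_cast hH1
  obtain ⟨N₀, hN₀⟩ := hH₀ H (le_max_left _ _)
  obtain ⟨X₀, hX₀⟩ := hSWP ((Q : ℝ) ^ 2 + 1) (κ / 40) N₀ (by positivity) (by positivity)
  refine ⟨1 / (100 * H), X₀, max N₀ (100 * H), by positivity, ?_⟩
  intro X Y lam hX hY hYX hlam
  have hYN : N₀ ≤ Y := (le_max_left _ _).trans hY
  have hYH : 100 * H ≤ Y := (le_max_right _ _).trans hY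
  have hYH' : 100 * (H : ℝ) ≤ Y := by exact_mod_cast hYH
  have hY1 : 1 ≤ Y := by omega
  have hY1' : (1 : ℝ) ≤ Y := by exact_mod_cast hY1
  have hY0 : (0 : ℝ) < Y := lt_of_lt_of_le one_pos hY1'
  have hlog : 0 ≤ X.L := X.L_nonneg
  have habs : ∀ m, |lam m| ≤ 1 := lio_abs hlam
  have hS : ∀ n, 0 ≤ SQ lam Q H n ∧ SQ lam Q H n ≤ (Q : ℝ) ^ 2 + 1 := fun n =>
    ⟨SQ_nonneg lam Q H n, (SQ_le habs Q H n).trans (by linarith)⟩
  have hmain := hX₀ (SQ lam Q H) X Y hS (fun N hN => hN₀ N hN lam hlam) hX hYN hY1 hYX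
  have hA0 : ∀ n, 0 ≤ (∑ u ∈ Ico n (n + Y), SQ lam Q H u) / Y := fun n =>
    div_nonneg (Finset.sum_nonneg fun u _ => SQ_nonneg lam Q H u) hY0.le
  have hA : ∀ n ∈ (Icc X.lo X.hi).filter (fun n : ℕ => ∃ θ : ℝ, 3 / 5 ≤ cor lam Y n θ ∧
      ¬ Gen Q (1 / (100 * H)) θ), 1 / 2 ≤ (∑ u ∈ Ico n (n + Y), SQ lam Q H u) / Y := by
    intro n hn
    obtain ⟨-, θ, hθ, hg⟩ := Finset.mem_filter.mp hn
    unfold Gen at hg
    push Not at hg
    obtain ⟨q, hq1, hqQ, hq⟩ := hg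
    have h1 := hNRG lam Q q H Y n θ (1 / (100 * H)) habs hq1 hqQ hH1 (by omega) hq.le
    have h2 : (H : ℝ) / Y ≤ 1 / 100 := by
      rw [div_le_div_iff₀ hY0 (by norm_num)]
      linarith
    have h3 : 7 * (1 / (100 * (H : ℝ))) * H = 7 / 100 := by
      field_simp
    linarith
  calc ∑ n ∈ (Icc X.lo X.hi).filter (fun n : ℕ => ∃ θ : ℝ, 3 / 5 ≤ cor lam Y n θ ∧
        ¬ Gen Q (1 / (100 * H)) θ), 1 / (n : ℝ)
      ≤ ∑ n ∈ (Icc X.lo X.hi).filter (fun n : ℕ => ∃ θ : ℝ, 3 / 5 ≤ cor lam Y n θ ∧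
        ¬ Gen Q (1 / (100 * H)) θ),
          2 * (1 / (n : ℝ) * ((∑ u ∈ Ico n (n + Y), SQ lam Q H u) / Y)) := by
        refine Finset.sum_le_sum fun n hn => ?_
        have h1 := hA n hn
        have h2 : (0 : ℝ) ≤ 1 / (n : ℝ) := by positivity
        have h3 := mul_le_mul_of_nonneg_left h1 h2
        linarith
    _ ≤ ∑ n ∈ Icc X.lo X.hi,
          2 * (1 / (n : ℝ) * ((∑ u ∈ Ico n (n + Y), SQ lam Q H u) / Y)) := by
        refine Finset.sum_le_sum_of_subset_of_nonneg (Finset.filter_subset _ _) fun n _ _ => ?_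
        have h2 : (0 : ℝ) ≤ 1 / (n : ℝ) := by positivity
        have := mul_nonneg h2 (hA0 n)
        linarith
    _ = 2 * ∑ n ∈ Icc X.lo X.hi,
          1 / (n : ℝ) * ((∑ u ∈ Ico n (n + Y), SQ lam Q H u) / Y) := by
        rw [Finset.mul_sum]
    _ ≤ 2 * (10 * (κ / 40) * X.L) := by linarith
    _ ≤ κ * X.L := by
        have := mul_nonneg hκ.le hlog
        nlinarith

end Pool.Agent.H91.NW
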